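import Pool.Agent.Helper53.SL.St

set_option autoImplicit false

open MeasureTheory Set

namespace Pool.Agent.Helper75.SL

open Pool.Agent.Helper53.SL

theorem int_cos_zero (k : ℤ) (hk : k ≠ 0) :
    ∫ t in (0 : ℝ)..2 * Real.pi, Real.cos (k * t) = 0 := by
  have hk' : (k : ℝ) ≠ 0 := by exact_mod_cast hk
  rw [intervalIntegral.integral_comp_mul_left (fun x => Real.cos x) hk', integral_cos]
  have h1 : Real.sin ((k : ℝ) * (2 * Real.pi)) = 0 := by
    have := Real.sin_int_mul_pi (2 * k)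
    rw [← this]
    congr 1
    push_cast
    ring
  rw [h1]
  simp

theorem int_cos_cos (n m : ℕ) (hn : 1 ≤ n) (hm : 1 ≤ m) :
    ∫ t in (0 : ℝ)..2 * Real.pi, Real.cos (n * t) * Real.cos (m * t)
      = if n = m then Real.pi else 0 := by
  have h0 : ∀ t : ℝ, Real.cos (n * t) * Real.cos (m * t)
      = 1 / 2 * Real.cos (((n : ℤ) - (m : ℤ) : ℤ) * t)
        + 1 / 2 * Real.cos (((n : ℤ) + (m : ℤ) : ℤ) * t) := by
    intro t
    have e1 : (((n : ℤ) - (m : ℤ) : ℤ) : ℝ) * t = n * t - m * t := by push_cast; ring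
    have e2 : (((n : ℤ) + (m : ℤ) : ℤ) : ℝ) * t = n * t + m * t := by push_cast; ring
    rw [e1, e2, Real.cos_sub, Real.cos_add]
    ring
  have hI : ∀ k : ℤ, IntervalIntegrable (fun t : ℝ => 1 / 2 * Real.cos (k * t)) volume 0
      (2 * Real.pi) := fun k => (Continuous.intervalIntegrable (by fun_prop) _ _)
  have h1 : ∫ t in (0 : ℝ)..2 * Real.pi, Real.cos (n * t) * Real.cos (m * t)
      = (∫ t in (0 : ℝ)..2 * Real.pi, 1 / 2 * Real.cos (((n : ℤ) - (m : ℤ) : ℤ) * t))
        + ∫ t in (0 : ℝ)..2 * Real.pi, 1 / 2 * Real.cos (((n : ℤ) + (m : ℤ) : ℤ) * t) := by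
    rw [← intervalIntegral.integral_add (hI _) (hI _)]
    exact intervalIntegral.integral_congr (fun t _ => h0 t)
  rw [h1, intervalIntegral.integral_const_mul, intervalIntegral.integral_const_mul,
    int_cos_zero ((n : ℤ) + (m : ℤ)) (by omega)]
  by_cases h : n = m
  · rw [if_pos h, h]
    simp
  · rw [if_neg h, int_cos_zero ((n : ℤ) - (m : ℤ)) (by omega)]
    simp

theorem hBes : StBes := by
  intro f hf N
  have hpi := Real.pi_pos
  have h2 : (0 : ℝ) ≤ 2 * Real.pi := by positivity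
  have hfi : Integrable f (volume.restrict (Ioc 0 (2 * Real.pi))) :=
    hf.integrable (by norm_num)
  have hcm : ∀ n : ℕ, AEStronglyMeasurable (fun t : ℝ => Real.cos (n * t))
      (volume.restrict (Ioc 0 (2 * Real.pi))) := fun n =>
    (by fun_prop : Continuous (fun t : ℝ => Real.cos (n * t))).aestronglyMeasurable
  have hcb : ∀ n : ℕ, ∀ᵐ t ∂(volume.restrict (Ioc 0 (2 * Real.pi))),
      ‖Real.cos ((n : ℝ) * t)‖ ≤ 1 := fun n => Filter.Eventually.of_forall (fun t => by
    rw [Real.norm_eq_abs]; exact Real.abs_cos_le_one _)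
  have hfc : ∀ n : ℕ, Integrable (fun t => f t * Real.cos (n * t))
      (volume.restrict (Ioc 0 (2 * Real.pi))) := fun n => hfi.mul_bdd (hcm n) (hcb n)
  have hcc : ∀ n m : ℕ, Integrable (fun t : ℝ => Real.cos (n * t) * Real.cos (m * t))
      (volume.restrict (Ioc 0 (2 * Real.pi))) := fun n m => by
    have := (Continuous.intervalIntegrable (μ := volume)
      (by fun_prop : Continuous (fun t : ℝ => Real.cos (n * t) * Real.cos (m * t))) 0 (2 * Real.pi)).1
    exact this
  obtain ⟨I, hI⟩ : ∃ I : ℕ → ℝ, ∀ n, I n = ∫ t in (0 : ℝ)..2 * Real.pi,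
      f t * Real.cos (n * t) := ⟨_, fun _ => rfl⟩
  have hI' : ∀ n, I n = ∫ t in Ioc 0 (2 * Real.pi), f t * Real.cos (n * t) := by
    intro n
    rw [hI n, intervalIntegral.integral_of_le h2]
  have hcc' : ∀ n m : ℕ, 1 ≤ n → 1 ≤ m →
      ∫ t in Ioc 0 (2 * Real.pi), Real.cos (n * t) * Real.cos (m * t)
        = if n = m then Real.pi else 0 := by
    intro n m hn hm
    rw [← intervalIntegral.integral_of_le h2]
    exact int_cos_cos n m hn hm
  -- the square of the remainder
  have hP2 : ∀ t : ℝ, (f t - ∑ n ∈ Finset.Icc 1 N, I n / Real.pi * Real.cos (n * t)) ^ 2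
      = f t ^ 2 - 2 * (∑ n ∈ Finset.Icc 1 N, I n / Real.pi * (f t * Real.cos (n * t)))
        + ∑ n ∈ Finset.Icc 1 N, ∑ m ∈ Finset.Icc 1 N,
          I n / Real.pi * (I m / Real.pi) * (Real.cos (n * t) * Real.cos (m * t)) := by
    intro t
    have e1 : (∑ n ∈ Finset.Icc 1 N, I n / Real.pi * Real.cos (n * t)) ^ 2
        = ∑ n ∈ Finset.Icc 1 N, ∑ m ∈ Finset.Icc 1 N,
          I n / Real.pi * (I m / Real.pi) * (Real.cos (n * t) * Real.cos (m * t)) := by
      rw [sq, Finset.sum_mul_sum]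
      refine Finset.sum_congr rfl (fun n _ => Finset.sum_congr rfl (fun m _ => ?_))
      ring
    have e2 : (∑ n ∈ Finset.Icc 1 N, I n / Real.pi * (f t * Real.cos (n * t)))
        = f t * ∑ n ∈ Finset.Icc 1 N, I n / Real.pi * Real.cos (n * t) := by
      rw [Finset.mul_sum]
      exact Finset.sum_congr rfl (fun n _ => by ring)
    rw [← e1, e2]
    ring
  have hint : ∫ t in Ioc 0 (2 * Real.pi),
      (f t - ∑ n ∈ Finset.Icc 1 N, I n / Real.pi * Real.cos (n * t)) ^ 2
      = (∫ t in Ioc 0 (2 * Real.pi), f t ^ 2)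
        - (∑ n ∈ Finset.Icc 1 N, I n ^ 2) / Real.pi := by
    have hs1 : Integrable (fun t => ∑ n ∈ Finset.Icc 1 N,
        I n / Real.pi * (f t * Real.cos (n * t))) (volume.restrict (Ioc 0 (2 * Real.pi))) :=
      integrable_finsetSum _ (fun n _ => (hfc n).const_mul _)
    have hs2 : Integrable (fun t : ℝ => ∑ n ∈ Finset.Icc 1 N, ∑ m ∈ Finset.Icc 1 N,
        I n / Real.pi * (I m / Real.pi) * (Real.cos (n * t) * Real.cos (m * t)))
        (volume.restrict (Ioc 0 (2 * Real.pi))) :=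
      integrable_finsetSum _ (fun n _ => integrable_finsetSum _
        (fun m _ => (hcc n m).const_mul _))
    have hf2 : Integrable (fun t => f t ^ 2) (volume.restrict (Ioc 0 (2 * Real.pi))) :=
      hf.integrable_sq
    rw [integral_congr_ae (Filter.Eventually.of_forall hP2)]
    have hd : Integrable (fun t => f t ^ 2 - 2 * (∑ n ∈ Finset.Icc 1 N,
        I n / Real.pi * (f t * Real.cos (n * t)))) (volume.restrict (Ioc 0 (2 * Real.pi))) :=
      hf2.sub (hs1.const_mul 2)
    rw [integral_add hd hs2, integral_sub hf2 (hs1.const_mul 2),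
      integral_const_mul, integral_finsetSum _ (fun n _ => (hfc n).const_mul _),
      integral_finsetSum _ (fun n _ => integrable_finsetSum _
        (fun m _ => (hcc n m).const_mul _))]
    have e1 : ∑ n ∈ Finset.Icc 1 N, ∫ t in Ioc 0 (2 * Real.pi),
        I n / Real.pi * (f t * Real.cos (n * t)) = (∑ n ∈ Finset.Icc 1 N, I n ^ 2) / Real.pi := by
      rw [Finset.sum_div]
      refine Finset.sum_congr rfl (fun n _ => ?_)
      rw [integral_const_mul, ← hI' n]
      ring
    have e2 : ∑ n ∈ Finset.Icc 1 N, ∫ t in Ioc 0 (2 * Real.pi), ∑ m ∈ Finset.Icc 1 N,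
        I n / Real.pi * (I m / Real.pi) * (Real.cos (n * t) * Real.cos (m * t))
        = (∑ n ∈ Finset.Icc 1 N, I n ^ 2) / Real.pi := by
      rw [Finset.sum_div]
      refine Finset.sum_congr rfl (fun n hn => ?_)
      rw [integral_finsetSum _ (fun m _ => (hcc n m).const_mul _)]
      have hn1 := (Finset.mem_Icc.1 hn).1
      have : ∀ m ∈ Finset.Icc 1 N, ∫ t in Ioc 0 (2 * Real.pi),
          I n / Real.pi * (I m / Real.pi) * (Real.cos (n * t) * Real.cos (m * t))
          = if n = m then I n ^ 2 / Real.pi else 0 := by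
        intro m hm
        have hm1 := (Finset.mem_Icc.1 hm).1
        rw [integral_const_mul, hcc' n m hn1 hm1]
        by_cases h : n = m
        · rw [if_pos h, if_pos h, ← h]
          field_simp
        · rw [if_neg h, if_neg h, mul_zero]
      rw [Finset.sum_congr rfl this, Finset.sum_ite_eq, if_pos hn]
    rw [e1, e2]
    ring
  have hnn : 0 ≤ ∫ t in Ioc 0 (2 * Real.pi),
      (f t - ∑ n ∈ Finset.Icc 1 N, I n / Real.pi * Real.cos (n * t)) ^ 2 :=
    integral_nonneg (fun t => sq_nonneg _)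
  rw [hint] at hnn
  have e3 : ∑ n ∈ Finset.Icc 1 N, (∫ t in (0 : ℝ)..2 * Real.pi, f t * Real.cos (n * t)) ^ 2
      = ∑ n ∈ Finset.Icc 1 N, I n ^ 2 := Finset.sum_congr rfl (fun n _ => by rw [hI n])
  rw [e3, intervalIntegral.integral_of_le h2]
  have h4 : (∑ n ∈ Finset.Icc 1 N, I n ^ 2) / Real.pi ≤ ∫ t in Ioc 0 (2 * Real.pi), f t ^ 2 := by
    linarith
  rw [div_le_iff₀ hpi] at h4
  linarith

end Pool.Agent.Helper75.SL
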